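import Pool.Agent.T2H07.IP.CAQ
import Pool.Agent.Y346.SG.OCM

/-!
# The order count along an equidistributed sequence: `X (log X) ^ (ε - 1)`
-/

set_option autoImplicit false

namespace Pool.Agent.T2H07.IP

open Finset
open Pool.Agent.H771R2.SingerDS
open Pool.Agent.H951R4.OD (ch PI Ex one_add_log_le)
open Pool.Agent.T2H58.DQ (Equi)
open Pool.Agent.W114.PQ (Dat Dk)
open Pool.Agent.Y346.SG Pool.Agent.Y346.SG.CA
open Pool.Agent.Y346.SG.DS (datG)
open scoped Classical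

theorem ocQ (mn : S_MN) (bk : S_BK) (θ : ℝ) (hθ : 0 < θ) (C0 : ℝ) (hC0 : 1 ≤ C0)
    (D : Dat) (hD : AxG D) (hτ : D.τ + D.β / 2 = 1) (ε : ℝ) (hε : 0 < ε) :
    ∃ C : ℝ, 0 < C ∧ ∀ X : ℕ, 3 ≤ X →
    ∀ a : ℕ → ℤ, Equi a X ((X : ℝ) ^ θ) (C0 * (X : ℝ) ^ (1 - θ)) →
      (((Ioc 0 X).filter (fun t => ∃ n : ℕ, a t = n ∧ Pool.Agent.W114.PQ.Pass D n)).card : ℝ) ≤
        C * X * (Real.log X) ^ (ε - 1) := by
  obtain ⟨k, hk, hD0, hD1, hkε⟩ := OC.exists_kk D hD hτ (ε / 2) (by linarith)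
  obtain ⟨C1, hC1, H⟩ := combineQ mn bk θ hθ C0 hC0 D hD k hk hD0 hD1
  set b : ℝ := ε / (2 * (k + 1)) with hb
  have hb0 : 0 < b := by positivity
  set C2 : ℝ := 2 * C1 ^ 2 * (1 + 1 / b) ^ (k + 1) with hC2
  have hC20 : 0 < C2 := by positivity
  refine ⟨36 * C1 ^ 2 + C2 + 1, by positivity, fun X hX a hEq => ?_⟩
  have hX3 : (3 : ℝ) ≤ X := by exact_mod_cast hX
  have hX0 : (0 : ℝ) < X := by linarith
  set L := Real.log X with hL
  have hL1 : 1 ≤ L := by
    rw [hL, Real.le_log_iff_exp_le hX0]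
    have := Real.exp_one_lt_d9
    linarith
  have hL0 : 0 < L := by linarith
  have hLpow : 0 < L ^ (ε - 1) := Real.rpow_pos_of_pos hL0 _
  have hlogL : 0 ≤ Real.log L := Real.log_nonneg hL1
  by_cases hbig : L < 36 * C1 ^ 2
  · -- trivial bound
    have h1 : (((Ioc 0 X).filter
        (fun t => ∃ n : ℕ, a t = n ∧ Pool.Agent.W114.PQ.Pass D n)).card : ℝ) ≤ X := by
      have h3 := Finset.card_filter_le (Ioc 0 X)
        (fun t => ∃ n : ℕ, a t = n ∧ Pool.Agent.W114.PQ.Pass D n)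
      rw [Nat.card_Ioc, Nat.sub_zero] at h3
      exact_mod_cast h3
    refine h1.trans ?_
    have h4 : L⁻¹ ≤ L ^ (ε - 1) := by
      rw [← Real.rpow_neg_one]
      exact Real.rpow_le_rpow_of_exponent_le hL1 (by linarith)
    have h5 : 1 ≤ (36 * C1 ^ 2) * L ^ (ε - 1) := by
      calc (1 : ℝ) = L * L⁻¹ := by field_simp
        _ ≤ (36 * C1 ^ 2) * L ^ (ε - 1) := by
          apply mul_le_mul hbig.le h4 (by positivity) (by positivity)
    have h6 : (36 * C1 ^ 2 + C2 + 1) * X * L ^ (ε - 1) =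
        X * ((36 * C1 ^ 2) * L ^ (ε - 1)) + X * ((C2 + 1) * L ^ (ε - 1)) := by ring
    rw [h6]
    have h7 : 0 ≤ (X : ℝ) * ((C2 + 1) * L ^ (ε - 1)) := by positivity
    nlinarith
  · push Not at hbig
    -- the choice of `z`
    set s : ℝ := L / (C1 * (1 + Real.log L)) with hs
    have hden : 0 < C1 * (1 + Real.log L) := by positivity
    have hs2 : 2 ≤ s := by
      rw [hs, le_div_iff₀ hden]
      have h1 := one_add_log_le (1 / 2) L (by norm_num) hL1
      rw [← Real.sqrt_eq_rpow] at h1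
      have h2 : 6 * C1 ≤ Real.sqrt L := by
        apply Real.le_sqrt_of_sq_le
        nlinarith
      have h3 : Real.sqrt L * Real.sqrt L = L := Real.mul_self_sqrt hL0.le
      have h5 : (0:ℝ) ≤ Real.sqrt L := Real.sqrt_nonneg _
      have h4 : 1 + Real.log L ≤ 3 * Real.sqrt L := by
        have : (1 + 1 / (1 / 2 : ℝ)) = 3 := by norm_num
        rw [this] at h1
        exact h1
      calc 2 * (C1 * (1 + Real.log L)) ≤ 2 * (C1 * (3 * Real.sqrt L)) := by
            apply mul_le_mul_of_nonneg_left _ (by norm_num)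
            exact mul_le_mul_of_nonneg_left h4 (by linarith)
        _ = (6 * C1) * Real.sqrt L := by ring
        _ ≤ Real.sqrt L * Real.sqrt L := mul_le_mul_of_nonneg_right h2 h5
        _ = L := h3
    set z : ℕ := ⌊Real.exp s⌋₊ with hz
    have hexps : 4 ≤ Real.exp s := by
      have h1 : Real.exp 2 ≤ Real.exp s := Real.exp_le_exp.2 hs2
      have h2 : Real.exp 2 = Real.exp 1 * Real.exp 1 := by rw [← Real.exp_add]; norm_num
      have h3 := Real.exp_one_gt_d9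
      nlinarith
    have hz4 : 4 ≤ z := by
      rw [hz]
      exact Nat.le_floor (by exact_mod_cast hexps)
    have hz3 : 3 ≤ z := by omega
    have hz0 : (0 : ℝ) < z := by
      have : 0 < z := by omega
      exact_mod_cast this
    have hzle : (z : ℝ) ≤ Real.exp s := Nat.floor_le (Real.exp_pos s).le
    have hzge : Real.exp s / 2 ≤ z := by
      have h1 : Real.exp s < z + 1 := Nat.lt_floor_add_one _
      linarith
    have hlogz_le : Real.log z ≤ s := by
      have := Real.log_le_log hz0 hzle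
      rwa [Real.log_exp] at this
    have hlogz_ge : s / 2 ≤ Real.log z := by
      have h1 := Real.log_le_log (by positivity) hzge
      rw [Real.log_div (Real.exp_pos s).ne' (by norm_num), Real.log_exp] at h1
      have h2 : Real.log 2 ≤ 1 := by
        have := Real.log_two_lt_d9
        linarith
      linarith
    have hlogz1 : 1 ≤ Real.log z := by linarith
    have hlogz0 : 0 < Real.log z := by linarith
    have hsL : s ≤ L := by
      rw [hs]
      apply div_le_self hL0.le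
      nlinarith
    have hll : Real.log (Real.log z) ≤ Real.log L :=
      Real.log_le_log hlogz0 (hlogz_le.trans hsL)
    have hll0 : 0 ≤ Real.log (Real.log z) := Real.log_nonneg hlogz1
    have hcond : C1 * Real.log z * (1 + Real.log (Real.log z)) ≤ Real.log X := by
      calc C1 * Real.log z * (1 + Real.log (Real.log z)) ≤ C1 * s * (1 + Real.log L) := by
            apply mul_le_mul _ (by linarith) (by linarith) (by positivity)
            exact mul_le_mul_of_nonneg_left hlogz_le (by linarith)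
        _ = L := by
            rw [hs]
            field_simp
    have h1 := H z X hz3 hcond a hEq
    refine h1.trans ?_
    -- estimate the factors
    have e1 : (1 + Real.log (Real.log z)) ^ k ≤ (1 + Real.log L) ^ k :=
      pow_le_pow_left₀ (by linarith) (by linarith) k
    have e2 : (Real.log z) ^ (-Dk D k) ≤
        2 * C1 * (1 + Real.log L) * L ^ (-1 + ε / 2) := by
      have f1 : (Real.log z) ^ (-Dk D k) ≤ (s / 2) ^ (-Dk D k) :=
        Real.rpow_le_rpow_of_nonpos (by linarith) hlogz_ge (by linarith)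
      refine f1.trans ?_
      have f2 : s / 2 = L / (2 * (C1 * (1 + Real.log L))) := by
        rw [hs, div_div]
        ring_nf
      rw [f2, Real.div_rpow hL0.le (by positivity)]
      have f3 : L ^ (-Dk D k) ≤ L ^ (-1 + ε / 2) :=
        Real.rpow_le_rpow_of_exponent_le hL1 (by linarith)
      have f4 : (1 : ℝ) ≤ 2 * (C1 * (1 + Real.log L)) := by nlinarith
      have f5 : ((2 * (C1 * (1 + Real.log L))) ^ (-Dk D k))⁻¹ ≤
          2 * (C1 * (1 + Real.log L)) := by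
        rw [← Real.rpow_neg (by linarith)]
        calc (2 * (C1 * (1 + Real.log L))) ^ (-(-Dk D k))
            ≤ (2 * (C1 * (1 + Real.log L))) ^ (1 : ℝ) :=
              Real.rpow_le_rpow_of_exponent_le f4 (by linarith)
          _ = _ := Real.rpow_one _
      rw [div_eq_mul_inv]
      calc L ^ (-Dk D k) *
            ((2 * (C1 * (1 + Real.log L))) ^ (-Dk D k))⁻¹
          ≤ L ^ (-1 + ε / 2) * (2 * (C1 * (1 + Real.log L))) :=
            mul_le_mul f3 f5 (by positivity) (by positivity)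
        _ = _ := by ring
    have e3 : (1 + Real.log L) ^ (k + 1) ≤ (1 + 1 / b) ^ (k + 1) * L ^ (ε / 2) := by
      have f1 := one_add_log_le b L hb0 hL1
      calc (1 + Real.log L) ^ (k + 1) ≤ ((1 + 1 / b) * L ^ b) ^ (k + 1) :=
            pow_le_pow_left₀ (by linarith) f1 _
        _ = (1 + 1 / b) ^ (k + 1) * L ^ (ε / 2) := by
            rw [mul_pow, ← Real.rpow_natCast (L ^ b), ← Real.rpow_mul hL0.le]
            congr 2
            rw [hb]
            push_cast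
            field_simp
    have e4 : C1 * X * (1 + Real.log (Real.log z)) ^ k *
        (Real.log z) ^ (-Dk D k) ≤ C2 * X * L ^ (ε - 1) := by
      calc C1 * X * (1 + Real.log (Real.log z)) ^ k * (Real.log z) ^ (-Dk D k)
          ≤ C1 * X * (1 + Real.log L) ^ k * (2 * C1 * (1 + Real.log L) * L ^ (-1 + ε / 2)) := by
            apply mul_le_mul _ e2 (by positivity) (by positivity)
            exact mul_le_mul_of_nonneg_left e1 (by positivity)
        _ = 2 * C1 ^ 2 * X * (1 + Real.log L) ^ (k + 1) * L ^ (-1 + ε / 2) := by ring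
        _ ≤ 2 * C1 ^ 2 * X * ((1 + 1 / b) ^ (k + 1) * L ^ (ε / 2)) * L ^ (-1 + ε / 2) := by
            apply mul_le_mul_of_nonneg_right _ (by positivity)
            exact mul_le_mul_of_nonneg_left e3 (by positivity)
        _ = C2 * X * (L ^ (ε / 2) * L ^ (-1 + ε / 2)) := by rw [hC2]; ring
        _ = C2 * X * L ^ (ε - 1) := by
            rw [← Real.rpow_add hL0]
            congr 2
            ring
    refine e4.trans ?_
    have h6 : (36 * C1 ^ 2 + C2 + 1) * X * L ^ (ε - 1) =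
        C2 * X * L ^ (ε - 1) + (36 * C1 ^ 2 + 1) * X * L ^ (ε - 1) := by ring
    rw [h6]
    have h7 : 0 ≤ (36 * C1 ^ 2 + 1) * X * L ^ (ε - 1) := by positivity
    linarith



theorem singerQ (θ : ℝ) (hθ : 0 < θ) (C0 : ℝ) (hC0 : 1 ≤ C0) {L : ℕ} (hL : L.Prime) (h3 : 3 ≤ L)
    (ε : ℝ) (hε : 0 < ε) :
    ∃ C : ℝ, 0 < C ∧ ∀ X : ℕ, 3 ≤ X →
    ∀ a : ℕ → ℤ, Equi a X ((X : ℝ) ^ θ) (C0 * (X : ℝ) ^ (1 - θ)) →
      (((Ioc 0 X).filter (fun t => ∃ n : ℕ, a t = n ∧ 2 ≤ n ∧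
        ∃ m : ℕ, Odd m ∧ 3 ≤ m ∧ L ∣ m ∧ HasSinger n m)).card : ℝ) ≤
      C * X * (Real.log X) ^ (ε - 1) := by
  have hodd : Odd L := hL.odd_of_ne_two (by omega)
  have e1 : (datG L 0).τ + (datG L 0).β / 2 = 1 := by
    have e1 : (datG L 0).τ = (Pool.Agent.W114.PQ.datS L).τ := rfl
    have e2 : (datG L 0).β = 0 := rfl
    rw [e1, e2, tau_prime hL]
    norm_num
  obtain ⟨C, hC, H⟩ := ocQ mn_full BK.bk θ hθ C0 hC0 (datG L 0)
    (DS.ax Pool.Agent.Y79.SG2.low hodd h3 0 (Or.inl rfl)) e1 ε hε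
  refine ⟨C, hC, fun X hX a ha => le_trans ?_ (H X hX a ha)⟩
  have hsub : (Ioc 0 X).filter (fun t => ∃ n : ℕ, a t = n ∧ 2 ≤ n ∧
        ∃ m : ℕ, Odd m ∧ 3 ≤ m ∧ L ∣ m ∧ HasSinger n m) ⊆
      (Ioc 0 X).filter (fun t => ∃ n : ℕ, a t = n ∧
        Pool.Agent.W114.PQ.Pass (datG L 0) n) := by
    intro t ht
    rw [mem_filter] at ht ⊢
    obtain ⟨h1, n, hn, hn2, m, hm, hm3, hLm, hS⟩ := ht
    exact ⟨h1, n, hn, pass0 0 hm hm3 hLm hn2 hS (fun h0 => by norm_num at h0)⟩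
  exact_mod_cast Finset.card_le_card hsub

/-- all odd `m ≥ 3` with a prime factor up to `K` -/
theorem singerQ_le (θ : ℝ) (hθ : 0 < θ) (C0 : ℝ) (hC0 : 1 ≤ C0) (K : ℕ) (ε : ℝ) (hε : 0 < ε) :
    ∃ C : ℝ, 0 < C ∧ ∀ X : ℕ, 3 ≤ X →
    ∀ a : ℕ → ℤ, Equi a X ((X : ℝ) ^ θ) (C0 * (X : ℝ) ^ (1 - θ)) →
      (((Ioc 0 X).filter (fun t => ∃ n : ℕ, a t = n ∧ 2 ≤ n ∧
        ∃ m : ℕ, Odd m ∧ 3 ≤ m ∧ m.minFac ≤ K ∧ HasSinger n m)).card : ℝ) ≤
      C * X * (Real.log X) ^ (ε - 1) := by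
  have h : ∀ L : ℕ, ∃ C : ℝ, 0 < C ∧ ((L.Prime ∧ 3 ≤ L) → ∀ X : ℕ, 3 ≤ X →
      ∀ a : ℕ → ℤ, Equi a X ((X : ℝ) ^ θ) (C0 * (X : ℝ) ^ (1 - θ)) →
      (((Ioc 0 X).filter (fun t => ∃ n : ℕ, a t = n ∧ 2 ≤ n ∧
        ∃ m : ℕ, Odd m ∧ 3 ≤ m ∧ L ∣ m ∧ HasSinger n m)).card : ℝ) ≤
      C * X * (Real.log X) ^ (ε - 1)) := by
    intro L
    by_cases hL : L.Prime ∧ 3 ≤ L
    · obtain ⟨C, hC, H⟩ := singerQ θ hθ C0 hC0 hL.1 hL.2 ε hε
      exact ⟨C, hC, fun _ => H⟩
    · exact ⟨1, one_pos, fun h => absurd h hL⟩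
  choose C hC H using h
  set S := (Finset.range (K + 1)).filter (fun L => L.Prime ∧ 3 ≤ L) with hS
  refine ⟨∑ L ∈ S, C L + 1, by
    have : 0 ≤ ∑ L ∈ S, C L := Finset.sum_nonneg fun L _ => (hC L).le
    linarith, fun X hX a ha => ?_⟩
  set A : ℕ → Finset ℕ := fun L => (Ioc 0 X).filter (fun t => ∃ n : ℕ, a t = n ∧ 2 ≤ n ∧
        ∃ m : ℕ, Odd m ∧ 3 ≤ m ∧ L ∣ m ∧ HasSinger n m) with hA
  have hlog : 0 ≤ (X : ℝ) * (Real.log X) ^ (ε - 1) :=
    mul_nonneg (Nat.cast_nonneg _) (Real.rpow_nonneg (Real.log_natCast_nonneg X) _)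
  have h1 : (((Ioc 0 X).filter (fun t => ∃ n : ℕ, a t = n ∧ 2 ≤ n ∧
        ∃ m : ℕ, Odd m ∧ 3 ≤ m ∧ m.minFac ≤ K ∧ HasSinger n m)).card : ℝ) ≤
      ∑ L ∈ S, ((A L).card : ℝ) := by
    have h2 : (Ioc 0 X).filter (fun t => ∃ n : ℕ, a t = n ∧ 2 ≤ n ∧
        ∃ m : ℕ, Odd m ∧ 3 ≤ m ∧ m.minFac ≤ K ∧ HasSinger n m) ⊆ S.biUnion fun L => A L := by
      intro t ht
      rw [mem_filter] at ht
      obtain ⟨ht1, n, hn, hn2, m, hm, hm3, hK, hSi⟩ := ht
      have hp : m.minFac.Prime := Nat.minFac_prime (by omega)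
      have hd : m.minFac ∣ m := Nat.minFac_dvd m
      have h3 : 3 ≤ m.minFac := by
        have h2 := hp.two_le
        rcases Nat.lt_or_ge 2 m.minFac with h | h
        · exact h
        · have h4 : m.minFac = 2 := by omega
          rw [h4] at hd
          rcases hm with ⟨k, hk⟩
          omega
      rw [Finset.mem_biUnion]
      refine ⟨m.minFac, ?_, ?_⟩
      · rw [hS, Finset.mem_filter, Finset.mem_range]
        exact ⟨by omega, hp, h3⟩
      · rw [hA]
        simp only [mem_filter]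
        exact ⟨ht1, n, hn, hn2, m, hm, hm3, hd, hSi⟩
    have h4 := (Finset.card_le_card h2).trans Finset.card_biUnion_le
    exact_mod_cast h4
  refine h1.trans ?_
  calc ∑ L ∈ S, ((A L).card : ℝ) ≤ ∑ L ∈ S, C L * X * (Real.log X) ^ (ε - 1) := by
        refine Finset.sum_le_sum fun L hL => ?_
        rw [hS, Finset.mem_filter] at hL
        exact H L hL.2 X hX a ha
    _ = (∑ L ∈ S, C L) * (X * (Real.log X) ^ (ε - 1)) := by
        rw [Finset.sum_mul]
        exact Finset.sum_congr rfl fun L _ => by ring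
    _ ≤ (∑ L ∈ S, C L + 1) * (X * (Real.log X) ^ (ε - 1)) :=
        mul_le_mul_of_nonneg_right (by linarith) hlog
    _ = _ := by ring

end Pool.Agent.T2H07.IP
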