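import Pool.Agent.T2H07.IP.SVQ
import Pool.Agent.Y346.SG.OC

/-!
# Counting the terms of an equidistributed sequence which pass the tests
-/

set_option autoImplicit false

namespace Pool.Agent.T2H07.IP

open Finset
open Pool.Agent.H951R4.OD (ch PI Ex sum_inv_prod d3_smallest d3_ps d3_log one_add_log_le mert_le
  sum_sq_inv)
open Pool.Agent.T2H58.DQ (Equi)
open Pool.Agent.W114.PQ (Dat Dk)
open Pool.Agent.Y346.SG Pool.Agent.Y346.SG.CA
open scoped Classical

theorem card_le_base {a : ℕ → ℤ} {X : ℕ} {ps S : Finset ℕ} {h : ℕ → ℕ → ℝ} (A : Finset ℕ)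
    (hA : A ⊆ base a X ps) (h0 : ∀ t ∈ A, ∀ p ∈ S, h p (rs (a t) (p ^ 2)) = 0)
    (h01 : ∀ p ∈ S, ∀ n, h p n = 0 ∨ h p n = 1) :
    (A.card : ℝ) ≤ ∑ t ∈ base a X ps, ∏ p ∈ S, (1 - h p (rs (a t) (p ^ 2))) := by
  have h1 : (A.card : ℝ) = ∑ t ∈ A, ∏ p ∈ S, (1 - h p (rs (a t) (p ^ 2))) := by
    rw [Finset.card_eq_sum_ones]
    push_cast
    refine Finset.sum_congr rfl fun t ht => ?_
    symm
    apply Finset.prod_eq_one
    intro p hp
    rw [h0 t ht p hp, sub_zero]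
  rw [h1]
  refine Finset.sum_le_sum_of_subset_of_nonneg hA ?_
  intro t _ _
  refine Finset.prod_nonneg fun p hp => ?_
  rcases h01 p hp (rs (a t) (p ^ 2)) with h | h <;> rw [h] <;> norm_num

/-- terms whose exact prime divisors up to `z` are those in `ps` -/
noncomputable def TQ (c0 : ℕ) (a : ℕ → ℤ) (z X : ℕ) (ps : Finset ℕ) : Finset ℕ :=
  (Ioc 0 X).filter (fun t => ∃ n : ℕ, a t = n ∧ (∀ p ∈ ps, Ex c0 n p) ∧
    ∀ p : ℕ, p ≤ z → Ex c0 n p → p ∈ ps)

/-- terms passing the tests whose smallest exact prime divisors are those in `ps` -/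
noncomputable def CQ (D : Dat) (a : ℕ → ℤ) (X : ℕ) (ps : Finset ℕ) : Finset ℕ :=
  (Ioc 0 X).filter (fun t => ∃ n : ℕ, a t = n ∧ Pool.Agent.W114.PQ.Pass D n ∧
    (∀ p ∈ ps, Ex D.c0 n p) ∧ ∀ p : ℕ, Ex D.c0 n p → p ≤ ps.sup id → p ∈ ps)

theorem mem_base {a : ℕ → ℤ} {X t n c0 : ℕ} {ps : Finset ℕ} (ht : t ∈ Ioc 0 X) (hn : a t = n)
    (h : ∀ p ∈ ps, Ex c0 n p) : t ∈ base a X ps := by
  unfold base
  rw [mem_filter]
  refine ⟨ht, fun p hp => ?_⟩
  rw [hn, rs_nat, XD_mod]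
  exact (h p hp).2.2

theorem countQ (θ : ℝ) (hθ : 0 < θ) (C0 : ℝ) (hC0 : 1 ≤ C0) (c0 : ℕ) (hc0 : 0 < c0) (k : ℕ) :
    ∃ C : ℝ, 1 ≤ C ∧ ∀ z X : ℕ, 3 ≤ z →
    C * Real.log z * (1 + Real.log (Real.log z)) ≤ Real.log X →
    ∀ a : ℕ → ℤ, Equi a X ((X : ℝ) ^ θ) (C0 * (X : ℝ) ^ (1 - θ)) →
    ∀ ps : Finset ℕ, ps.card ≤ k → (∀ p ∈ ps, p.Prime ∧ p ≤ z) →
      ((TQ c0 a z X ps).card : ℝ) ≤ C * (X / ∏ p ∈ ps, (p : ℝ)) / Real.log z := by
  obtain ⟨CD, hCD1, hsieve⟩ := svq 2 (by norm_num) θ hθ C0 hC0 k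
  obtain ⟨CM, hCM0, hCM⟩ := mert_le
  obtain ⟨CS, hCS0, hCS⟩ := sum_sq_inv
  set K : ℝ := CM + CS + c0 + k with hK
  have hCE : 0 < CD * Real.exp K := by positivity
  refine ⟨CD * Real.exp K + CD, by linarith, ?_⟩
  intro z X hz hX a ha ps hpsk hps
  have hlz : 1 ≤ Real.log z := by
    have h3 : (1 : ℝ) ≤ Real.log 3 := by
      rw [Real.le_log_iff_exp_le (by norm_num)]
      linarith [Real.exp_one_lt_d9]
    exact h3.trans (Real.log_le_log (by norm_num) (by exact_mod_cast hz))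
  have hllz : 0 ≤ Real.log (Real.log z) := Real.log_nonneg hlz
  set L := Real.log z with hL
  have hX' : CD * L * (1 + Real.log L) ≤ Real.log X := by
    refine le_trans ?_ hX
    rw [mul_assoc, mul_assoc]
    exact mul_le_mul_of_nonneg_right (by linarith) (by positivity)
  have hmain := hsieve z X hz hX' a ha ps hpsk hps (Pool.Agent.H951R4.OD.D2a.SS c0 ps z)
    Pool.Agent.H951R4.OD.D2a.hh (by
      rw [Finset.disjoint_left]
      intro p hp
      exact (Pool.Agent.H951R4.OD.D2a.mem_SS.1 hp).2.2)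
    (fun p hp => (Pool.Agent.H951R4.OD.D2a.mem_SS.1 hp).1)
    (fun p _ n => Pool.Agent.H951R4.OD.D2a.hh_01 p n)
    (fun p _ n => Pool.Agent.H951R4.OD.D2a.hh_per p n) (by
      intro p hp
      have hp0 := (Pool.Agent.H951R4.OD.D2a.mem_SS.1 hp).1.1.pos
      have hpR : (0 : ℝ) < p := by exact_mod_cast hp0
      have := Pool.Agent.H951R4.OD.D2a.mean_eq p hp0
      push_cast at this
      rw [this]
      have h1 : (0 : ℝ) ≤ 1 / (p : ℝ) ^ 2 := by positivity
      have h2 : (1 : ℝ) / p ≤ 2 / p := by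
        apply div_le_div_of_nonneg_right _ hpR.le
        norm_num
      linarith)
  have hms : ∑ p ∈ Pool.Agent.H951R4.OD.D2a.SS c0 ps z,
      (∑ n ∈ range (p ^ 2), Pool.Agent.H951R4.OD.D2a.hh p n) / (p : ℝ) ^ 2 =
      ∑ r ∈ Pool.Agent.H951R4.OD.D2a.SS c0 ps z, (1 / (r : ℝ) - 1 / (r : ℝ) ^ 2) := by
    refine sum_congr rfl fun r hr => ?_
    have := Pool.Agent.H951R4.OD.D2a.mean_eq r (Pool.Agent.H951R4.OD.D2a.mem_SS.1 hr).1.1.pos
    push_cast at this
    exact this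
  rw [hms] at hmain
  have hlow := Pool.Agent.H951R4.OD.D2a.mean_lower hCM hCS hc0 hpsk hz
  have hexp : Real.exp (-∑ r ∈ Pool.Agent.H951R4.OD.D2a.SS c0 ps z,
      (1 / (r : ℝ) - 1 / (r : ℝ) ^ 2)) ≤ Real.exp K / L := by
    calc Real.exp (-∑ r ∈ Pool.Agent.H951R4.OD.D2a.SS c0 ps z, (1 / (r : ℝ) - 1 / (r : ℝ) ^ 2))
        ≤ Real.exp (K - Real.log L) := Real.exp_le_exp.2 (by rw [hL, hK]; linarith)
      _ = Real.exp K / L := by
        rw [Real.exp_sub, Real.exp_log (by linarith)]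
  have hPr0 : 0 < ∏ p ∈ ps, (p : ℝ) := Finset.prod_pos fun p hp => by
    exact_mod_cast (hps p hp).1.pos
  have hcount := card_le_base (a := a) (X := X) (ps := ps)
    (S := Pool.Agent.H951R4.OD.D2a.SS c0 ps z) (h := Pool.Agent.H951R4.OD.D2a.hh)
    (TQ c0 a z X ps) (by
      intro t ht
      unfold TQ at ht
      rw [mem_filter] at ht
      obtain ⟨h1, n, h2, h3, -⟩ := ht
      exact mem_base h1 h2 h3) (by
      intro t ht p hp
      unfold TQ at ht
      rw [mem_filter] at ht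
      obtain ⟨h1, n, h2, h3, h4⟩ := ht
      rw [h2, rs_nat, Pool.Agent.H177R2.SD.AvgAux.per_mod (Pool.Agent.H951R4.OD.D2a.hh p) (p ^ 2)
        (Pool.Agent.H951R4.OD.D2a.hh_per p)]
      rw [Pool.Agent.H951R4.OD.D2a.mem_SS] at hp
      obtain ⟨⟨r1, r2⟩, r3, r4⟩ := hp
      unfold Pool.Agent.H951R4.OD.D2a.hh
      rw [if_neg]
      rintro ⟨d1, d2⟩
      exact r4 (h4 p r2 ⟨r1, r3, d1, d2⟩))
    (fun p _ n => Pool.Agent.H951R4.OD.D2a.hh_01 p n)
  calc ((TQ c0 a z X ps).card : ℝ) ≤ CD * (X / ∏ p ∈ ps, (p : ℝ)) *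
        Real.exp (-∑ r ∈ Pool.Agent.H951R4.OD.D2a.SS c0 ps z, (1 / (r : ℝ) - 1 / (r : ℝ) ^ 2)) :=
        hcount.trans hmain
    _ ≤ CD * (X / ∏ p ∈ ps, (p : ℝ)) * (Real.exp K / L) := by gcongr
    _ = (CD * Real.exp K) * (X / ∏ p ∈ ps, (p : ℝ)) / L := by ring
    _ ≤ (CD * Real.exp K + CD) * (X / ∏ p ∈ ps, (p : ℝ)) / L := by
        gcongr
        linarith

theorem caq (mn : S_MN) (bk : S_BK) (θ : ℝ) (hθ : 0 < θ) (C0 : ℝ) (hC0 : 1 ≤ C0)
    (D : Dat) (hD : AxG D) (k : ℕ) (hk : 1 ≤ k)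
    (hD0 : 0 < Dk D k) (hD1 : Dk D k ≤ 1) : ∃ C : ℝ, 1 ≤ C ∧
    ∀ z X : ℕ, 3 ≤ z → C * Real.log z * (1 + Real.log (Real.log z)) ≤ Real.log X →
    ∀ a : ℕ → ℤ, Equi a X ((X : ℝ) ^ θ) (C0 * (X : ℝ) ^ (1 - θ)) →
    ∀ ps : Finset ℕ, ps.card = k → (∀ p ∈ ps, p.Prime ∧ p ≤ z) →
      ((CQ D a X ps).card : ℝ) ≤ C * (X / ∏ p ∈ ps, (p : ℝ)) * (Real.log z) ^ (-Dk D k) := by
  have hκ := hD.κ1
  obtain ⟨Cs, hCs, hsieve⟩ := svq (2 * D.κ + 1) (by linarith) θ hθ C0 hC0 k
  obtain ⟨Cb, hCb, hbad⟩ := bk D hD k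
  obtain ⟨Ca, hCa, hsmall⟩ := Pool.Agent.H951R4.OD.D2b_small D.c0 hD.c0_pos k
  obtain ⟨C3, hC3, h3m⟩ := three_mod_four D.c0 hD.c0_pos
  obtain ⟨Cq, hCq, hsq⟩ := Pool.Agent.H951R4.OD.sum_sq_inv
  set K : ℝ := Real.log (2 * Cb) + 2 * k with hK
  have hkr : (1 : ℝ) ≤ k := by exact_mod_cast hk
  have hlogCb : 0 < Real.log (2 * Cb) := Real.log_pos (by linarith)
  have hK1 : 1 ≤ K := by rw [hK]; linarith
  have hlogK : 0 ≤ Real.log K := Real.log_nonneg hK1
  set δ : ℝ := Dk D k with hδ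
  set C2 : ℝ := Cb + C3 + (D.κ + 1) * Cq with hC2
  have hC20 : 0 ≤ C2 := by positivity
  set C' : ℝ := Ca + C2 + δ * Real.log K with hC'
  have hC'0 : 0 ≤ C' := by positivity
  refine ⟨Cs * Real.exp C' + Cs, ?_, ?_⟩
  · have : 0 ≤ Cs * Real.exp C' := by positivity
    linarith
  intro z X hw hX a ha ps hpk hps
  have hz : 3 ≤ z := hw
  obtain ⟨w, hwdef⟩ : ∃ w : ℕ, w = z := ⟨z, rfl⟩
  have hwz : w ≤ z := hwdef.le
  rw [← hwdef] at hps hw
  set Pr : ℕ := ∏ p ∈ ps, p with hPr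
  set P : ℕ := ps.sup id with hP
  have hz3 : (3 : ℝ) ≤ z := by exact_mod_cast hz
  have hw3 : (3 : ℝ) ≤ w := by exact_mod_cast hw
  have hexp1 : Real.exp 1 < 3 := by
    have := Real.exp_one_lt_d9
    linarith
  have hlz : 1 ≤ Real.log z := by
    rw [Real.le_log_iff_exp_le (by linarith)]; linarith
  have hlw : 1 ≤ Real.log w := by
    rw [Real.le_log_iff_exp_le (by linarith)]; linarith
  have hllz : 0 ≤ Real.log (Real.log z) := Real.log_nonneg hlz
  have hne : ps.Nonempty := by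
    rw [← Finset.card_pos]; omega
  obtain ⟨P0, hP0, hP0'⟩ := Finset.exists_mem_eq_sup ps hne id
  have hPP0 : P = P0 := hP0'
  have hPmem : P ∈ ps := by rw [hPP0]; exact hP0
  have hPprime : P.Prime := (hps P hPmem).1
  have hPw : P ≤ w := (hps P hPmem).2
  have hPz : P ≤ z := hPw.trans hwz
  have hleP : ∀ p ∈ ps, p ≤ P := fun p hp => Finset.le_sup (f := id) hp
  have hPr0 : 0 < Pr := Finset.prod_pos fun p hp => (hps p hp).1.pos
  have hPPr : P ≤ Pr := Nat.le_of_dvd hPr0 (Finset.dvd_prod_of_mem _ hPmem)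
  have hPrP : Pr ≤ P ^ k := by
    have := Finset.prod_le_pow_card ps (fun p => p) P hleP
    rw [hpk] at this
    exact this
  have hPrr : (1 : ℝ) ≤ Pr := by exact_mod_cast hPr0
  have hprod : (∏ p ∈ ps, (p : ℝ)) = (Pr : ℝ) := by rw [hPr]; push_cast; rfl
  -- sizes
  have hlogN : Cs * Real.log z * (1 + Real.log (Real.log z)) ≤ Real.log X := by
    refine le_trans ?_ hX
    rw [mul_assoc, mul_assoc]
    apply mul_le_mul_of_nonneg_right _ (by positivity)
    have : 0 ≤ Cs * Real.exp C' := by positivity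
    linarith
  -- y
  set y : ℕ := ⌈Cb * (Pr : ℝ) ^ 2⌉₊ with hy
  have hy1 : Cb * (Pr : ℝ) ^ 2 ≤ y := Nat.le_ceil _
  have hy2 : (y : ℝ) < Cb * (Pr : ℝ) ^ 2 + 1 := Nat.ceil_lt_add_one (by positivity)
  have hPy : P ≤ y := by
    have h1 : (P : ℝ) ≤ Pr := by exact_mod_cast hPPr
    have h2 : (P : ℝ) ≤ y := by nlinarith
    exact_mod_cast h2
  have hy3 : 3 ≤ y := by
    have h2 : (3 : ℝ) ≤ y := by nlinarith
    exact_mod_cast h2
  have hyr : (3 : ℝ) ≤ y := by exact_mod_cast hy3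
  set P3 : ℝ := ((max P 3 : ℕ) : ℝ) with hP3
  have hP33 : (3 : ℝ) ≤ P3 := by rw [hP3]; exact_mod_cast le_max_right _ _
  have hP3w : P3 ≤ w := by rw [hP3]; exact_mod_cast max_le hPw hw
  have hlP3 : 1 ≤ Real.log P3 := by
    rw [Real.le_log_iff_exp_le (by linarith)]
    linarith
  have hllP3w : Real.log (Real.log P3) ≤ Real.log (Real.log w) :=
    Real.log_le_log (by linarith) (Real.log_le_log (by linarith) hP3w)
  have hlogy : Real.log y ≤ K * Real.log P3 := by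
    have h1 : (y : ℝ) ≤ 2 * Cb * (Pr : ℝ) ^ 2 := by nlinarith
    have h2 : Real.log y ≤ Real.log (2 * Cb * (Pr : ℝ) ^ 2) := Real.log_le_log (by linarith) h1
    rw [Real.log_mul (by positivity) (by positivity), Real.log_pow] at h2
    have h3 : Real.log Pr ≤ k * Real.log P3 := by
      rw [← Real.log_pow]
      apply Real.log_le_log (by linarith)
      have h4 : (Pr : ℝ) ≤ (P : ℝ) ^ k := by exact_mod_cast hPrP
      refine h4.trans (pow_le_pow_left₀ (Nat.cast_nonneg _) ?_ k)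
      rw [hP3]; exact_mod_cast le_max_left _ _
    rw [hK]
    push_cast at h2
    nlinarith
  have hlogy0 : 0 < Real.log y := Real.log_pos (by linarith)
  have hlly : Real.log (Real.log y) ≤ Real.log K + Real.log (Real.log P3) := by
    rw [← Real.log_mul (by linarith) (by linarith)]
    exact Real.log_le_log hlogy0 hlogy
  have hA0 : 0 ≤ Real.log (Real.log P3) := Real.log_nonneg hlP3
  -- the two sets
  set S1 : Finset ℕ := (PI 0 P).filter (fun r => ¬ r ∣ D.c0 ∧ r ∉ ps) with hS1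
  set S2 : Finset ℕ := (PI y z).filter (fun q => ¬ q ∣ D.c0) with hS2
  have hmem1 : ∀ r ∈ S1, r.Prime ∧ r ≤ P ∧ ¬ r ∣ D.c0 ∧ r ∉ ps := by
    intro r hr
    simp only [hS1, PI, mem_filter, mem_Ioc] at hr
    exact ⟨hr.1.2, hr.1.1.2, hr.2.1, hr.2.2⟩
  have hmem2 : ∀ q ∈ S2, q.Prime ∧ y < q ∧ q ≤ z ∧ ¬ q ∣ D.c0 := by
    intro q hq
    simp only [hS2, PI, mem_filter, mem_Ioc] at hq
    exact ⟨hq.1.2, hq.1.1.1, hq.1.1.2, hq.2⟩
  have hdisj : Disjoint S1 S2 := by
    rw [Finset.disjoint_left]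
    intro r h1 h2
    have := (hmem1 r h1).2.1
    have := (hmem2 r h2).2.1
    omega
  have hdps : Disjoint (S1 ∪ S2) ps := by
    rw [Finset.disjoint_left]
    intro r h1 h2
    rcases mem_union.1 h1 with h1 | h1
    · exact (hmem1 r h1).2.2.2 h2
    · have := (hmem2 r h1).2.1
      have := hleP r h2
      omega
  have hme1 : ∀ r ∈ S1, (∑ n ∈ range (r ^ 2), hh D ps P 1 r n) / (r : ℝ) ^ 2 =
      1 / r - 1 / (r : ℝ) ^ 2 := fun r hr => mean1 D ps (hmem1 r hr).1 (hmem1 r hr).2.1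
  have hme2 := fun q (hq : q ∈ S2) => mean2 hD mn ps (P := P) (Pr := 1) (hmem2 q hq).1 (by
        have := (hmem2 q hq).2.1
        omega) (hmem2 q hq).2.2.2 (Nat.coprime_one_left q)
  have hs := hsieve z X hz hlogN a ha ps hpk.le (by
      intro p hp
      have := hps p hp
      exact ⟨this.1, this.2.trans hwz⟩) (S1 ∪ S2) (hh D ps P 1) hdps (by
      intro p hp
      rcases mem_union.1 hp with hp | hp
      · exact ⟨(hmem1 p hp).1, (hmem1 p hp).2.1.trans hPz⟩
      · exact ⟨(hmem2 p hp).1, (hmem2 p hp).2.2.1⟩) (fun p _ n => hh01 D ps P 1 p n) (by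
      intro p hp n
      apply hh_per hD
      rcases mem_union.1 hp with hp | hp
      · exact (hmem1 p hp).1
      · exact (hmem2 p hp).1) (by
      intro p hp
      rcases mem_union.1 hp with hp | hp
      · rw [hme1 p hp]
        have : (1 : ℝ) / p ≤ (2 * D.κ + 1) / p := by
          apply div_le_div_of_nonneg_right (by linarith) (Nat.cast_nonneg p)
        have : (0 : ℝ) ≤ 1 / (p : ℝ) ^ 2 := by positivity
        linarith
      · exact (hme2 p hp).2)
  have hsift := card_le_base (a := a) (X := X) (ps := ps) (S := S1 ∪ S2) (h := hh D ps P 1)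
    (CQ D a X ps) (by
      intro t ht
      unfold CQ at ht
      rw [mem_filter] at ht
      obtain ⟨h1, n, h2, -, h3, -⟩ := ht
      exact mem_base h1 h2 h3) (by
      intro t ht p hp
      unfold CQ at ht
      rw [mem_filter] at ht
      obtain ⟨-, n, h2, hpass, hex, h4⟩ := ht
      have hpp : p.Prime := by
        rcases mem_union.1 hp with hp | hp
        · exact (hmem1 p hp).1
        · exact (hmem2 p hp).1
      rw [h2, rs_nat, Pool.Agent.H177R2.SD.AvgAux.per_mod (hh D ps P 1 p) (p ^ 2)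
        (fun m => hh_per hD ps P 1 p m hpp)]
      rcases mem_union.1 hp with hp | hp
      · obtain ⟨h1, h2, h3, h5⟩ := hmem1 p hp
        unfold hh
        rw [if_pos h2, if_neg]
        rintro ⟨h6, h7⟩
        exact h5 (h4 p ⟨h1, h3, h6, h7⟩ h2)
      · obtain ⟨h1, h2, h6, h3⟩ := hmem2 p hp
        have hPp : P < p := lt_of_le_of_lt hPy h2
        have hp2 : p ≠ 2 := fun h => h3 (h ▸ hD.two)
        unfold hh
        rw [if_neg (by omega), if_neg]
        rintro (⟨⟨r, hr, h4⟩, h5⟩ | ⟨h4, h5, h6, h7⟩)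
        · rw [one_mul] at h5
          exact hpass.1 r p ((p - 1) / 2) (hex r hr) h1 h3 h5
            ((Pool.Agent.H951R4.OD.ch_eq_neg_one_iff r p h1 hp2).1 h4)
        · exact hpass.2 h4 p ⟨h1, h3, h6, h7⟩ h5) (fun p _ n => hh01 D ps P 1 p n)
  refine hsift.trans (hs.trans ?_)
  rw [Finset.sum_union hdisj, Finset.sum_congr rfl hme1]
  set Sg2 : ℝ := ∑ q ∈ S2, (∑ n ∈ range (q ^ 2), hh D ps P 1 q n) / (q : ℝ) ^ 2 with hSg2
  have h1 := hsmall ps hpk P hPprime.two_le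
  -- the lower bound of the sum of the means
  have hlow : δ * Real.log (Real.log z) - C' ≤
      ∑ r ∈ S1, (1 / (r : ℝ) - 1 / (r : ℝ) ^ 2) + Sg2 := by
    have hmw : 0 ≤ (1 - δ) * Real.log (Real.log P3) :=
      mul_nonneg (by linarith) hA0
    rcases Nat.lt_or_ge z y with hzy | hyz
    · have h2 : S2 = ∅ := by
        rw [Finset.eq_empty_iff_forall_notMem]
        intro q hq
        have := (hmem2 q hq).2
        omega
      have h2' : Sg2 = 0 := by rw [hSg2, h2, Finset.sum_empty]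
      rw [h2', add_zero]
      have h3 : Real.log (Real.log z) ≤ Real.log (Real.log y) := by
        apply Real.log_le_log (by linarith)
        apply Real.log_le_log (by linarith)
        exact_mod_cast hzy.le
      have h4 : δ * Real.log (Real.log z) ≤ δ * (Real.log K + Real.log (Real.log P3)) :=
        mul_le_mul_of_nonneg_left (h3.trans hlly) (by linarith)
      rw [hC']
      linarith
    · have h2 := hbad ps hpk (fun p hp => (hps p hp).1) y z (by rw [hprod]; exact hy1) hyz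
      have h3 := h3m y z (by omega) hyz
      have h4 := hsq S2
      have hsum : ∑ q ∈ S2, ((if (∃ r ∈ ps, ch (r : ℤ) q = -1) then D.ρ q / q else 0) +
          (if D.β = 1 ∧ q % 4 = 3 then 1 / (q : ℝ) else 0) - (D.κ + 1) / (q : ℝ) ^ 2) ≤ Sg2 :=
        Finset.sum_le_sum fun q hq => (hme2 q hq).1
      rw [Finset.sum_sub_distrib, Finset.sum_add_distrib] at hsum
      have e1 : ∑ q ∈ S2, (if (∃ r ∈ ps, ch (r : ℤ) q = -1) then D.ρ q / q else 0) =
          ∑ q ∈ (PI y z).filter (fun q => ¬ q ∣ D.c0 ∧ ∃ p ∈ ps, ch (p : ℤ) q = -1),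
            D.ρ q / q := by
        rw [← Finset.sum_filter, hS2, Finset.filter_filter]
      have e2 : D.β / 2 * Real.log (Real.log z / Real.log y) - C3 ≤
          ∑ q ∈ S2, (if D.β = 1 ∧ q % 4 = 3 then 1 / (q : ℝ) else 0) := by
        rcases hD.β01 with hβ | hβ
        · have : ∀ q ∈ S2, (if D.β = 1 ∧ q % 4 = 3 then 1 / (q : ℝ) else 0) = 0 := by
            intro q _
            rw [if_neg]
            rintro ⟨h, -⟩
            rw [hβ] at h
            norm_num at h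
          rw [Finset.sum_congr rfl this, Finset.sum_const_zero, hβ]
          linarith
        · have : ∀ q ∈ S2, (if D.β = 1 ∧ q % 4 = 3 then 1 / (q : ℝ) else 0) =
              (if q % 4 = 3 then 1 / (q : ℝ) else 0) := by
            intro q _
            simp only [hβ, true_and]
          rw [Finset.sum_congr rfl this, hβ]
          linarith
      have e3 : ∑ q ∈ S2, (D.κ + 1) / (q : ℝ) ^ 2 ≤ (D.κ + 1) * Cq := by
        have : ∀ q ∈ S2, (D.κ + 1) / (q : ℝ) ^ 2 = (D.κ + 1) * (1 / (q : ℝ) ^ 2) := by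
          intro q _; ring
        rw [Finset.sum_congr rfl this, ← Finset.mul_sum]
        exact mul_le_mul_of_nonneg_left h4 (by linarith)
      rw [← e1] at h2
      have e4 : δ = (D.τ - D.κ / 2 ^ k) + D.β / 2 := by rw [hδ]; unfold Dk; ring
      have e5 : δ * Real.log (Real.log z / Real.log y) - C2 ≤ Sg2 := by
        rw [e4, hC2]
        linarith
      rw [Real.log_div (by linarith) (by linarith)] at e5
      have h5 : δ * Real.log (Real.log y) ≤ δ * (Real.log K + Real.log (Real.log P3)) :=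
        mul_le_mul_of_nonneg_left hlly (by linarith)
      rw [hC']
      linarith
  have hexpo : Real.exp (-(∑ r ∈ S1, (1 / (r : ℝ) - 1 / (r : ℝ) ^ 2) + Sg2)) ≤
      Real.exp C' * (Real.log z) ^ (-δ) := by
    rw [Real.rpow_def_of_pos (by linarith), ← Real.exp_add]
    apply Real.exp_le_exp.2
    linarith
  have hrp : 0 ≤ (Real.log z) ^ (-δ) := Real.rpow_nonneg (by linarith) _
  have hXP0 : (0 : ℝ) ≤ X / ∏ p ∈ ps, (p : ℝ) := by positivity
  calc Cs * (X / ∏ p ∈ ps, (p : ℝ)) *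
        Real.exp (-(∑ r ∈ S1, (1 / (r : ℝ) - 1 / (r : ℝ) ^ 2) + Sg2))
      ≤ Cs * (X / ∏ p ∈ ps, (p : ℝ)) * (Real.exp C' * (Real.log z) ^ (-δ)) := by
        gcongr
    _ = (Cs * Real.exp C') * (X / ∏ p ∈ ps, (p : ℝ)) * (Real.log z) ^ (-δ) := by ring
    _ ≤ (Cs * Real.exp C' + Cs) * (X / ∏ p ∈ ps, (p : ℝ)) * (Real.log z) ^ (-δ) := by
        apply mul_le_mul_of_nonneg_right _ hrp
        apply mul_le_mul_of_nonneg_right _ hXP0
        linarith

/-- the covering -/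
theorem coverQ (D : Dat) (a : ℕ → ℤ) (k z X : ℕ) :
    (Ioc 0 X).filter (fun t => ∃ n : ℕ, a t = n ∧ Pool.Agent.W114.PQ.Pass D n) ⊆
      (((range k).biUnion (fun j => (PI 0 z).powersetCard j)).biUnion (fun ps =>
        TQ D.c0 a z X ps)) ∪
      (((PI 0 z).powersetCard k).biUnion (fun ps => CQ D a X ps)) := by
  intro t ht
  rw [Finset.mem_filter] at ht
  obtain ⟨hn1, n, hn, hn2⟩ := ht
  set T := (PI 0 z).filter (fun p => Ex D.c0 n p) with hT
  have hTm : ∀ p, p ≤ z → Ex D.c0 n p → p ∈ T := by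
    intro p hp he
    rw [hT, Finset.mem_filter]
    refine ⟨?_, he⟩
    unfold PI
    rw [Finset.mem_filter, Finset.mem_Ioc]
    exact ⟨⟨he.1.pos, hp⟩, he.1⟩
  have hTe : ∀ p ∈ T, Ex D.c0 n p := fun p hp => (Finset.mem_filter.1 hp).2
  have hTs : T ⊆ PI 0 z := Finset.filter_subset _ _
  rw [Finset.mem_union]
  by_cases hk : T.card < k
  · left
    rw [Finset.mem_biUnion]
    refine ⟨T, ?_, ?_⟩
    · rw [Finset.mem_biUnion]
      exact ⟨T.card, Finset.mem_range.2 hk, Finset.mem_powersetCard.2 ⟨hTs, rfl⟩⟩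
    · unfold TQ
      rw [Finset.mem_filter]
      exact ⟨hn1, n, hn, hTe, hTm⟩
  · right
    push Not at hk
    have h0 : 0 ∉ T := fun h => Nat.not_prime_zero (hTe 0 h).1
    obtain ⟨ps, hps, hcard, hdown⟩ := d3_smallest T h0 k hk
    rw [Finset.mem_biUnion]
    refine ⟨ps, Finset.mem_powersetCard.2 ⟨hps.trans hTs, hcard⟩, ?_⟩
    unfold CQ
    rw [Finset.mem_filter]
    refine ⟨hn1, n, hn, hn2, fun p hp => hTe p (hps hp), fun p he hle => ?_⟩
    apply hdown p _ hle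
    apply hTm p _ he
    refine hle.trans (Finset.sup_le fun q hq => ?_)
    have := hTs (hps hq)
    unfold PI at this
    rw [Finset.mem_filter, Finset.mem_Ioc] at this
    exact this.1.2

theorem combineQ (mn : S_MN) (bk : S_BK) (θ : ℝ) (hθ : 0 < θ) (C0 : ℝ) (hC0 : 1 ≤ C0)
    (D : Dat) (hD : AxG D) (k : ℕ) (hk : 1 ≤ k)
    (hD0 : 0 < Dk D k) (hD1 : Dk D k ≤ 1) :
    ∃ C : ℝ, 1 ≤ C ∧ ∀ z X : ℕ, 3 ≤ z →
    C * Real.log z * (1 + Real.log (Real.log z)) ≤ Real.log X →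
    ∀ a : ℕ → ℤ, Equi a X ((X : ℝ) ^ θ) (C0 * (X : ℝ) ^ (1 - θ)) →
      (((Ioc 0 X).filter (fun t => ∃ n : ℕ, a t = n ∧ Pool.Agent.W114.PQ.Pass D n)).card : ℝ) ≤
      C * X * (1 + Real.log (Real.log z)) ^ k * (Real.log z) ^ (-Dk D k) := by
  obtain ⟨C1, hC1, h1⟩ := countQ θ hθ C0 hC0 D.c0 hD.c0_pos k
  obtain ⟨C2, hC2, h2⟩ := caq mn bk θ hθ C0 hC0 D hD k hk hD0 hD1
  choose D' hD'1 hD' using sum_inv_prod
  have hsum : 0 ≤ ∑ j ∈ range k, D' j := sum_nonneg (fun j _ => by linarith [hD'1 j])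
  refine ⟨C1 + C2 + C1 * (∑ j ∈ range k, D' j) + C2 * D' k, ?_, fun z X hz hX a ha => ?_⟩
  · have : 0 ≤ C1 * (∑ j ∈ range k, D' j) := mul_nonneg (by linarith) hsum
    have : 0 ≤ C2 * D' k := mul_nonneg (by linarith) (by linarith [hD'1 k])
    linarith
  · obtain ⟨hlog, hll⟩ := d3_log hz
    have hp1 : 0 ≤ C1 * (∑ j ∈ range k, D' j) := mul_nonneg (by linarith) hsum
    have hp2 : 0 ≤ C2 * D' k := mul_nonneg (by linarith) (by linarith [hD'1 k])
    have hA : 0 ≤ Real.log z * (1 + Real.log (Real.log z)) := by positivity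
    have hX1 : C1 * Real.log z * (1 + Real.log (Real.log z)) ≤ Real.log X := by
      refine le_trans ?_ hX
      rw [mul_assoc, mul_assoc]
      exact mul_le_mul_of_nonneg_right (by linarith) hA
    have hX2 : C2 * Real.log z * (1 + Real.log (Real.log z)) ≤ Real.log X := by
      refine le_trans ?_ hX
      rw [mul_assoc, mul_assoc]
      exact mul_le_mul_of_nonneg_right (by linarith) hA
    set LL : ℝ := 1 + Real.log (Real.log z) with hLL
    set W : ℝ := (Real.log z) ^ (-Dk D k) with hW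
    have hLL1 : 1 ≤ LL := by linarith
    have hW0 : 0 ≤ W := Real.rpow_nonneg (by linarith) _
    have hW1 : 1 / Real.log z ≤ W := by
      rw [hW, one_div, ← Real.rpow_neg_one]
      apply Real.rpow_le_rpow_of_exponent_le hlog
      linarith
    have hXn : (0 : ℝ) ≤ X := Nat.cast_nonneg _
    have hcov := Finset.card_le_card (coverQ D a k z X)
    have hcov2 := (hcov.trans (Finset.card_union_le _ _)).trans
      (Nat.add_le_add Finset.card_biUnion_le Finset.card_biUnion_le)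
    have hcov3 : (((Ioc 0 X).filter
        (fun t => ∃ n : ℕ, a t = n ∧ Pool.Agent.W114.PQ.Pass D n)).card : ℝ) ≤
        ∑ ps ∈ (range k).biUnion (fun j => (PI 0 z).powersetCard j),
          ((TQ D.c0 a z X ps).card : ℝ) +
        ∑ ps ∈ (PI 0 z).powersetCard k, ((CQ D a X ps).card : ℝ) := by
      exact_mod_cast hcov2
    refine hcov3.trans ?_
    -- the first sum
    have hI : ∀ j ∈ range k, ∑ ps ∈ (PI 0 z).powersetCard j,
        ((TQ D.c0 a z X ps).card : ℝ) ≤ D' j * (C1 * X * LL ^ k * W) := by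
      intro j hj
      rw [Finset.mem_range] at hj
      have h3 : ∀ ps ∈ (PI 0 z).powersetCard j,
          ((TQ D.c0 a z X ps).card : ℝ) ≤ (C1 * X * W) * (1 / ∏ p ∈ ps, (p : ℝ)) := by
        intro ps hps
        obtain ⟨hc, hpp⟩ := d3_ps hps
        have h4 := h1 z X hz hX1 a ha ps (by omega) hpp
        refine h4.trans ?_
        have hpr : 0 ≤ 1 / ∏ p ∈ ps, (p : ℝ) := by positivity
        have h5 : C1 * (X / ∏ p ∈ ps, (p : ℝ)) / Real.log z =
            (C1 * X * (1 / ∏ p ∈ ps, (p : ℝ))) * (1 / Real.log z) := by ring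
        rw [h5]
        have h6 := mul_le_mul_of_nonneg_left hW1
          (show 0 ≤ C1 * X * (1 / ∏ p ∈ ps, (p : ℝ)) by positivity)
        linarith
      have h4 := Finset.sum_le_sum h3
      rw [← Finset.mul_sum] at h4
      have h5 := mul_le_mul_of_nonneg_left (hD' j z hz) (show 0 ≤ C1 * X * W by positivity)
      have h6 : LL ^ j ≤ LL ^ k := pow_le_pow_right₀ hLL1 hj.le
      have h7 := mul_le_mul_of_nonneg_left h6
        (show 0 ≤ C1 * X * W * D' j from mul_nonneg (by positivity) (by linarith [hD'1 j]))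
      calc _ ≤ _ := h4
        _ ≤ C1 * X * W * (D' j * LL ^ j) := h5
        _ = C1 * X * W * D' j * LL ^ j := by ring
        _ ≤ C1 * X * W * D' j * LL ^ k := h7
        _ = D' j * (C1 * X * LL ^ k * W) := by ring
    have hI2 : ∑ ps ∈ (range k).biUnion (fun j => (PI 0 z).powersetCard j),
        ((TQ D.c0 a z X ps).card : ℝ) ≤
        (∑ j ∈ range k, D' j) * (C1 * X * LL ^ k * W) := by
      rw [Finset.sum_biUnion]
      · rw [Finset.sum_mul]
        exact Finset.sum_le_sum hI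
      · intro i _ j _ hij
        rw [Function.onFun, Finset.disjoint_left]
        intro ps h3 h4
        exact hij ((d3_ps h3).1.symm.trans (d3_ps h4).1)
    -- the second sum
    have hII : ∑ ps ∈ (PI 0 z).powersetCard k, ((CQ D a X ps).card : ℝ) ≤
        D' k * (C2 * X * LL ^ k * W) := by
      have h3 : ∀ ps ∈ (PI 0 z).powersetCard k,
          ((CQ D a X ps).card : ℝ) ≤ (C2 * X * W) * (1 / ∏ p ∈ ps, (p : ℝ)) := by
        intro ps hps
        obtain ⟨hc, hpp⟩ := d3_ps hps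
        have h4 := h2 z X hz hX2 a ha ps hc hpp
        refine h4.trans (le_of_eq ?_)
        ring
      have h4 := Finset.sum_le_sum h3
      rw [← Finset.mul_sum] at h4
      have h5 := mul_le_mul_of_nonneg_left (hD' k z hz) (show 0 ≤ C2 * X * W by positivity)
      calc _ ≤ _ := h4
        _ ≤ C2 * X * W * (D' k * LL ^ k) := h5
        _ = D' k * (C2 * X * LL ^ k * W) := by ring
    have hpos1 : 0 ≤ C1 * (X * LL ^ k * W) := by positivity
    have hpos2 : 0 ≤ C2 * (X * LL ^ k * W) := by positivity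
    calc _ ≤ (∑ j ∈ range k, D' j) * (C1 * X * LL ^ k * W) + D' k * (C2 * X * LL ^ k * W) :=
          add_le_add hI2 hII
      _ ≤ C1 * (X * LL ^ k * W) + C2 * (X * LL ^ k * W) +
          ((∑ j ∈ range k, D' j) * (C1 * X * LL ^ k * W) + D' k * (C2 * X * LL ^ k * W)) := by
        linarith
      _ = (C1 + C2 + C1 * (∑ j ∈ range k, D' j) + C2 * D' k) * X * LL ^ k * W := by ring

end Pool.Agent.T2H07.IP
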