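import Pool.Agent.W114.PQ.Stm
import Pool.Agent.H951R4.OD.D2a
import Pool.Agent.T2H58.DQ.Mo

/-!
# Brun's pure sieve along a sequence of integers with a level of distribution
-/

set_option autoImplicit false

namespace Pool.Agent.T2H07.IP

open Finset
open Pool.Agent.H951R4.OD Pool.Agent.H951R4.OD.D1 Pool.Agent.H177R2.SD
open Pool.Agent.T2H58.DQ (Equi)

/-- the residue -/
def rs (z : ℤ) (q : ℕ) : ℕ := (z % (q : ℤ)).toNat

theorem rs_mod {z : ℤ} {q M : ℕ} (h : q ∣ M) : rs (z % (M : ℤ)) q = rs z q := by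
  unfold rs
  rw [Int.emod_emod_of_dvd z (by exact_mod_cast h)]

theorem rs_nat (n q : ℕ) : rs (n : ℤ) q = n % q := by
  unfold rs
  rw [← Int.natCast_emod, Int.toNat_natCast]

/-- averages of products along the sequence -/
theorem level {a : ℕ → ℤ} {X : ℕ} {Q E : ℝ} (hE : Equi a X Q E) (T : Finset ℕ)
    (hT : ∀ p ∈ T, p.Prime) (f : ℕ → ℕ → ℝ) (h01 : ∀ p ∈ T, ∀ n, 0 ≤ f p n ∧ f p n ≤ 1)
    (hper : ∀ p ∈ T, ∀ n, f p (n + p ^ 2) = f p n) (hQ : ((∏ p ∈ T, p ^ 2 : ℕ) : ℝ) ≤ Q) :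
    |∑ t ∈ Ioc 0 X, ∏ p ∈ T, f p (rs (a t) (p ^ 2)) -
      X * ∏ p ∈ T, ((∑ n ∈ range (p ^ 2), f p n) / (p : ℝ) ^ 2)| ≤ ((∏ p ∈ T, p ^ 2 : ℕ) : ℝ) * E := by
  set M : ℕ := ∏ p ∈ T, p ^ 2 with hM
  have hM0 : 0 < M := Finset.prod_pos fun p hp => pow_pos (hT p hp).pos 2
  have hMR : (0 : ℝ) < M := by exact_mod_cast hM0
  have h1 := hE.per (q := M) hM0 hQ (fun z => ∏ p ∈ T, f p (rs z (p ^ 2))) (by
      intro z
      apply Finset.prod_congr rfl
      intro p hp
      rw [rs_mod (Finset.dvd_prod_of_mem (fun p => p ^ 2) hp)]) (by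
      intro z
      have h2 := AvgAux.prod_01 T (fun p => f p (rs z (p ^ 2))) (fun p hp => h01 p hp _)
      rw [abs_of_nonneg h2.1]
      exact h2.2)
  have h2 : ∑ v ∈ range M, ∏ p ∈ T, f p (rs (v : ℤ) (p ^ 2)) = ∏ p ∈ T, ∑ n ∈ range (p ^ 2), f p n := by
    rw [← AvgAux.sum_prod T (fun p => p ^ 2) (fun p hp => pow_pos (hT p hp).pos 2) (by
      intro p hp p' hp' hne
      have hc : Nat.Coprime p p' := (Nat.coprime_primes (hT p hp) (hT p' hp')).2 hne
      exact hc.pow 2 2) f hper]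
    apply Finset.sum_congr rfl
    intro v _
    apply Finset.prod_congr rfl
    intro p hp
    rw [rs_nat, AvgAux.per_mod (f p) (p ^ 2) (hper p hp)]
  have h3 : (X : ℝ) / M * ∑ v ∈ range M, ∏ p ∈ T, f p (rs (v : ℤ) (p ^ 2)) =
      X * ∏ p ∈ T, ((∑ n ∈ range (p ^ 2), f p n) / (p : ℝ) ^ 2) := by
    rw [h2, Finset.prod_div_distrib, hM]
    push_cast
    ring
  rw [h3] at h1
  exact h1

/-- exact divisibility, as a condition on the residue modulo `p ^ 2` -/
def XD (p n : ℕ) : Prop := p ∣ n ∧ ¬ p ^ 2 ∣ n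

theorem XD_per (p n : ℕ) : XD p (n + p ^ 2) ↔ XD p n := by
  unfold XD
  have h1 : p ∣ n + p ^ 2 ↔ p ∣ n := (Nat.dvd_add_left (dvd_pow_self p (by norm_num)))
  have h2 : p ^ 2 ∣ n + p ^ 2 ↔ p ^ 2 ∣ n := (Nat.dvd_add_left (dvd_refl _))
  rw [h1, h2]

theorem XD_mod (p n : ℕ) : XD p (n % p ^ 2) ↔ XD p n := by
  unfold XD
  rw [Nat.dvd_mod_iff (dvd_pow_self p (by norm_num)), Nat.dvd_mod_iff (dvd_refl (p ^ 2))]

open scoped Classical in
/-- the terms divisible exactly by the primes of `ps` -/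
noncomputable def base (a : ℕ → ℤ) (X : ℕ) (ps : Finset ℕ) : Finset ℕ :=
  (Ioc 0 X).filter (fun t => ∀ p ∈ ps, XD p (rs (a t) (p ^ 2)))

theorem svq (κ : ℝ) (hκ : 1 ≤ κ) (θ : ℝ) (hθ : 0 < θ) (C0 : ℝ) (hC0 : 1 ≤ C0) (k : ℕ) :
    ∃ C : ℝ, 1 ≤ C ∧ ∀ z X : ℕ, 3 ≤ z →
    C * Real.log z * (1 + Real.log (Real.log z)) ≤ Real.log X →
    ∀ a : ℕ → ℤ, Equi a X ((X : ℝ) ^ θ) (C0 * (X : ℝ) ^ (1 - θ)) →
    ∀ (ps : Finset ℕ), ps.card ≤ k → (∀ p ∈ ps, p.Prime ∧ p ≤ z) →
    ∀ (S : Finset ℕ) (h : ℕ → ℕ → ℝ), Disjoint S ps → (∀ p ∈ S, p.Prime ∧ p ≤ z) →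
    (∀ p ∈ S, ∀ n, h p n = 0 ∨ h p n = 1) → (∀ p ∈ S, ∀ n, h p (n + p ^ 2) = h p n) →
    (∀ p ∈ S, (∑ n ∈ range (p ^ 2), h p n) / (p : ℝ) ^ 2 ≤ κ / p) →
    ∑ t ∈ base a X ps, ∏ p ∈ S, (1 - h p (rs (a t) (p ^ 2))) ≤
      C * (X / ∏ p ∈ ps, (p : ℝ)) *
        Real.exp (-∑ p ∈ S, (∑ n ∈ range (p ^ 2), h p n) / (p : ℝ) ^ 2) := by
  classical
  obtain ⟨C2, hC2, hmert⟩ := mert_le
  have hκC : 0 ≤ κ * C2 := by nlinarith
  have hκ0 : 0 < κ := by linarith
  set B : ℝ := 33 * κ + 32 * (κ * C2) + 8 + 3 * k with hB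
  have hB0 : 0 < B := by positivity
  refine ⟨B / θ + 2 + C0 * Real.exp (κ * C2), by
    have : 0 ≤ B / θ := by positivity
    have : 0 ≤ C0 * Real.exp (κ * C2) := by positivity
    linarith, ?_⟩
  intro z X hz hX a ha ps hpsk hps S h hdis hS h01 hper hmean
  have hzR : (3 : ℝ) ≤ z := by exact_mod_cast hz
  set L := Real.log z with hL
  set LL := Real.log L with hLL
  have hL1 : 1 < L := by
    have : Real.log 3 ≤ L := Real.log_le_log (by norm_num) hzR
    have h3 : 1 < Real.log 3 := by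
      rw [Real.lt_log_iff_exp_lt (by norm_num)]
      have := Real.exp_one_lt_d9
      linarith
    linarith
  have hLL0 : 0 < LL := Real.log_pos hL1
  set η : ℕ → ℝ := fun p => (∑ n ∈ range (p ^ 2), h p n) / (p : ℝ) ^ 2 with hη
  have hη01 : ∀ p ∈ S, 0 ≤ η p ∧ η p ≤ 1 := by
    intro p hp
    have e : η p = (∑ n ∈ range (p ^ 2), h p n) / ((p ^ 2 : ℕ) : ℝ) := by
      simp only [hη]
      push_cast
      rfl
    rw [e]
    apply AvgAux.mean_01
    intro n
    rcases h01 p hp n with h | h <;> rw [h] <;> norm_num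
  set Λ := ∑ p ∈ S, η p with hΛ
  have hΛ0 : 0 ≤ Λ := Finset.sum_nonneg fun p hp => (hη01 p hp).1
  have hΛ1 : Λ ≤ κ * LL + κ * C2 := by
    have hsub : S ⊆ PI 0 z := by
      intro p hp
      obtain ⟨h1, h2⟩ := hS p hp
      simp only [PI, mem_filter, mem_Ioc]
      exact ⟨⟨h1.pos, h2⟩, h1⟩
    have h1 : Λ ≤ ∑ p ∈ PI 0 z, κ * ((1 : ℝ) / p) := by
      calc Λ ≤ ∑ p ∈ S, κ * ((1 : ℝ) / p) := by
            apply Finset.sum_le_sum
            intro p hp
            have := hmean p hp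
            simp only [hη]
            calc _ ≤ κ / (p : ℝ) := this
              _ = κ * (1 / p) := by ring
        _ ≤ _ := by
            apply Finset.sum_le_sum_of_subset_of_nonneg hsub
            intro p _ _
            positivity
    rw [← Finset.mul_sum] at h1
    have h2 := (abs_le.1 (hmert z hz)).2
    have h3 : κ * (∑ p ∈ PI 0 z, (1 : ℝ) / p) ≤ κ * (LL + C2) :=
      mul_le_mul_of_nonneg_left (by linarith) hκ0.le
    linarith
  set r : ℕ := ⌈4 * (κ * LL + κ * C2)⌉₊ with hr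
  have hr1 : 4 * (κ * LL + κ * C2) ≤ r := Nat.le_ceil _
  have hr2 : (r : ℝ) < 4 * (κ * LL + κ * C2) + 1 := Nat.ceil_lt_add_one (by positivity)
  have hLLL : 0 < L * (1 + LL) := by positivity
  have hlogX : B * (L * (1 + LL)) ≤ θ * Real.log X := by
    have h1 : B / θ * (L * (1 + LL)) ≤ Real.log X := by
      refine le_trans ?_ hX
      rw [mul_assoc (_ + _ + _)]
      apply mul_le_mul_of_nonneg_right _ hLLL.le
      have : 0 ≤ C0 * Real.exp (κ * C2) := by positivity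
      linarith
    have h2 := mul_le_mul_of_nonneg_left h1 hθ.le
    calc B * (L * (1 + LL)) = θ * (B / θ * (L * (1 + LL))) := by field_simp
      _ ≤ _ := h2
  have hXpos : (0 : ℝ) < X := by
    rcases Nat.eq_zero_or_pos X with h0 | h0
    · subst h0
      simp only [Nat.cast_zero, Real.log_zero, mul_zero] at hlogX
      have : 0 < B * (L * (1 + LL)) := by positivity
      linarith
    · exact_mod_cast h0
  have hX1 : (1 : ℝ) ≤ X := by
    have : 1 ≤ X := by exact_mod_cast hXpos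
    exact_mod_cast this
  -- the power of `z`
  have hA : (z : ℝ) ^ (8 * r + 3 * k) * Real.exp Λ ≤ Real.exp (κ * C2) * (X : ℝ) ^ θ := by
    have e1 : (z : ℝ) ^ (8 * r + 3 * k) = Real.exp ((8 * r + 3 * k) * L) := by
      rw [← Real.exp_log (show (0 : ℝ) < z by linarith), ← Real.exp_nat_mul]
      push_cast
      rfl
    rw [e1, Real.rpow_def_of_pos hXpos, ← Real.exp_add, ← Real.exp_add]
    apply Real.exp_le_exp.2
    have h1 : LL ≤ L := by
      have := Real.log_le_sub_one_of_pos (show 0 < L by linarith)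
      linarith
    have h2 : (8 * (r : ℝ) + 3 * k) * L ≤ (32 * (κ * LL) + 32 * (κ * C2) + 8 + 3 * k) * L :=
      mul_le_mul_of_nonneg_right (by linarith) (by linarith)
    have h3 : κ * LL ≤ κ * L := mul_le_mul_of_nonneg_left h1 hκ0.le
    have h4 : (32 * (κ * LL) + 32 * (κ * C2) + 8 + 3 * k) * L + κ * L ≤ B * (L * (1 + LL)) := by
      rw [hB]
      have h5 : 0 ≤ κ * (L * LL) := by positivity
      have h6 : 0 ≤ (κ * C2) * (L * LL) := by positivity
      have h7 : 0 ≤ L * LL := by positivity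
      have h8 : 0 ≤ (k : ℝ) * (L * LL) := by positivity
      have h9 : 0 ≤ κ * L := by positivity
      nlinarith
    have e2 : Real.log X * θ = θ * Real.log X := mul_comm _ _
    rw [e2]
    linarith
  have hexpC : 0 < Real.exp (κ * C2) := Real.exp_pos _
  have hexpΛ : 1 ≤ Real.exp Λ := Real.one_le_exp hΛ0
  -- the modulus
  have hA' : (z : ℝ) ^ (4 * r + 2 * k) ≤ (X : ℝ) ^ θ := by
    have e1 : (z : ℝ) ^ (4 * r + 2 * k) = Real.exp ((4 * r + 2 * k) * L) := by
      rw [← Real.exp_log (show (0 : ℝ) < z by linarith), ← Real.exp_nat_mul]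
      push_cast
      rfl
    rw [e1, Real.rpow_def_of_pos hXpos]
    apply Real.exp_le_exp.2
    have h2 : (4 * (r : ℝ) + 2 * k) * L ≤ (32 * (κ * LL) + 32 * (κ * C2) + 8 + 3 * k) * L := by
      apply mul_le_mul_of_nonneg_right _ (by linarith)
      have : (0 : ℝ) ≤ k := Nat.cast_nonneg k
      have : (0 : ℝ) ≤ r := Nat.cast_nonneg r
      linarith
    have h4 : (32 * (κ * LL) + 32 * (κ * C2) + 8 + 3 * k) * L ≤ B * (L * (1 + LL)) := by
      rw [hB]
      have h5 : 0 ≤ κ * (L * LL) := by positivity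
      have h6 : 0 ≤ (κ * C2) * (L * LL) := by positivity
      have h7 : 0 ≤ L * LL := by positivity
      have h8 : 0 ≤ (k : ℝ) * (L * LL) := by positivity
      have h9 : 0 ≤ κ * L := by positivity
      nlinarith
    have e2 : Real.log X * θ = θ * Real.log X := mul_comm _ _
    rw [e2]
    linarith
  -- the functions
  set g : ℕ → ℕ → ℝ := fun p n => if p ∈ ps then (if XD p n then 1 else 0) else h p n with hg
  have hgS : ∀ p ∈ S, g p = h p := by
    intro p hp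
    have : p ∉ ps := fun hh => (Finset.disjoint_left.1 hdis) hp hh
    funext n
    simp only [hg, this, if_false]
  have hg01 : ∀ p ∈ S ∪ ps, ∀ n, 0 ≤ g p n ∧ g p n ≤ 1 := by
    intro p hp n
    rcases mem_union.1 hp with hp | hp
    · rw [hgS p hp]
      rcases h01 p hp n with h | h <;> rw [h] <;> norm_num
    · simp only [hg, hp, if_true]
      split_ifs <;> norm_num
  have hgper : ∀ p ∈ S ∪ ps, ∀ n, g p (n + p ^ 2) = g p n := by
    intro p hp n
    rcases mem_union.1 hp with hp | hp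
    · rw [hgS p hp]
      exact hper p hp n
    · simp only [hg, hp, if_true, XD_per]
  have hgm : ∀ p ∈ ps, 0 ≤ (∑ n ∈ range (p ^ 2), g p n) / (p : ℝ) ^ 2 ∧
      (∑ n ∈ range (p ^ 2), g p n) / (p : ℝ) ^ 2 ≤ 1 / p := by
    intro p hp
    have hp1 := (hps p hp).1.pos
    have e1 : ∀ n ∈ range (p ^ 2), g p n = D2a.hh p n := by
      intro n _
      simp only [hg, hp, if_true]
      unfold D2a.hh XD
      congr
    have e2 : (∑ n ∈ range (p ^ 2), g p n) / (p : ℝ) ^ 2 = 1 / (p : ℝ) - 1 / (p : ℝ) ^ 2 := by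
      rw [Finset.sum_congr rfl e1, ← D2a.mean_eq p hp1]
      push_cast
      rfl
    rw [e2]
    have hpR : (1 : ℝ) ≤ p := by exact_mod_cast hp1
    have h1 : (1 : ℝ) / (p : ℝ) ^ 2 ≤ 1 / p := by
      apply one_div_le_one_div_of_le (by linarith)
      nlinarith
    have h2 : (0 : ℝ) ≤ 1 / (p : ℝ) ^ 2 := by positivity
    constructor <;> linarith
  set V : ℝ := X * ∏ p ∈ ps, ((∑ n ∈ range (p ^ 2), g p n) / (p : ℝ) ^ 2) with hV
  have hV0 : 0 ≤ V := mul_nonneg hXpos.le (Finset.prod_nonneg fun p hp => (hgm p hp).1)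
  have hPr0 : 0 < ∏ p ∈ ps, (p : ℝ) := Finset.prod_pos fun p hp => by
    exact_mod_cast (hps p hp).1.pos
  have hV1 : V ≤ X / ∏ p ∈ ps, (p : ℝ) := by
    have h1 : ∏ p ∈ ps, ((∑ n ∈ range (p ^ 2), g p n) / (p : ℝ) ^ 2) ≤ ∏ p ∈ ps, (1 / (p : ℝ)) :=
      Finset.prod_le_prod (fun p hp => (hgm p hp).1) (fun p hp => (hgm p hp).2)
    have h2 : ∏ p ∈ ps, (1 / (p : ℝ)) = 1 / ∏ p ∈ ps, (p : ℝ) := by
      rw [Finset.prod_div_distrib, Finset.prod_const_one]
    rw [h2] at h1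
    calc V ≤ X * (1 / ∏ p ∈ ps, (p : ℝ)) := mul_le_mul_of_nonneg_left h1 hXpos.le
      _ = _ := by ring
  set δ : ℝ := (z : ℝ) ^ (4 * r + 2 * k) * (C0 * (X : ℝ) ^ (1 - θ)) with hδ
  have hδ0 : 0 ≤ δ := by positivity
  have hz1 : (1 : ℝ) ≤ z := by linarith
  -- Brun
  have hbr := brun (base a X ps) S (fun p t => h p (rs (a t) (p ^ 2))) η
    (by
      intro p hp n _
      rcases h01 p hp (rs (a n) (p ^ 2)) with h | h <;> rw [h] <;> norm_num) hη01 r V δ hV0 hδ0
    (by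
      intro T hT hcard
      have hdT : Disjoint T ps := Finset.disjoint_of_subset_left hT hdis
      have hprod : ((∏ p ∈ T ∪ ps, p ^ 2 : ℕ) : ℝ) ≤ (z : ℝ) ^ (4 * r + 2 * k) := by
        push_cast
        calc ∏ p ∈ T ∪ ps, (p : ℝ) ^ 2 ≤ ∏ p ∈ T ∪ ps, (z : ℝ) ^ 2 := by
              apply Finset.prod_le_prod
              · intro p _; positivity
              · intro p hp
                have h2' : (p : ℝ) ≤ z := by
                  rcases mem_union.1 hp with hp | hp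
                  · exact_mod_cast (hS p (hT hp)).2
                  · exact_mod_cast (hps p hp).2
                exact pow_le_pow_left₀ (Nat.cast_nonneg _) h2' 2
          _ = (z : ℝ) ^ (2 * (T ∪ ps).card) := by rw [Finset.prod_const, pow_mul]
          _ ≤ (z : ℝ) ^ (4 * r + 2 * k) := by
              apply pow_le_pow_right₀ hz1
              have := Finset.card_union_le T ps
              omega
      have hlev := level ha (T ∪ ps) (by
          intro p hp
          rcases mem_union.1 hp with hp | hp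
          · exact (hS p (hT hp)).1
          · exact (hps p hp).1) g (by
          intro p hp n
          rcases mem_union.1 hp with hp | hp
          · exact hg01 p (mem_union_left _ (hT hp)) n
          · exact hg01 p (mem_union_right _ hp) n) (by
          intro p hp n
          rcases mem_union.1 hp with hp | hp
          · exact hgper p (mem_union_left _ (hT hp)) n
          · exact hgper p (mem_union_right _ hp) n) (hprod.trans hA')
      have e1 : ∑ t ∈ Ioc 0 X, ∏ p ∈ T ∪ ps, g p (rs (a t) (p ^ 2)) =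
          ∑ t ∈ base a X ps, ∏ p ∈ T, h p (rs (a t) (p ^ 2)) := by
        unfold base
        rw [Finset.sum_filter]
        apply Finset.sum_congr rfl
        intro t _
        rw [Finset.prod_union hdT]
        have e2 : ∏ p ∈ T, g p (rs (a t) (p ^ 2)) = ∏ p ∈ T, h p (rs (a t) (p ^ 2)) :=
          Finset.prod_congr rfl fun p hp => by rw [hgS p (hT hp)]
        have e3 : ∏ p ∈ ps, g p (rs (a t) (p ^ 2)) =
            if (∀ p ∈ ps, XD p (rs (a t) (p ^ 2))) then 1 else 0 := by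
          have e4 : ∏ p ∈ ps, g p (rs (a t) (p ^ 2)) =
              ∏ p ∈ ps, (if XD p (rs (a t) (p ^ 2)) then (1 : ℝ) else 0) :=
            Finset.prod_congr rfl fun p hp => by simp only [hg, hp, if_true]
          rw [e4, Finset.prod_ite_zero]
          simp
        rw [e2, e3]
        split_ifs <;> simp
      have e2 : X * ∏ p ∈ T ∪ ps, ((∑ n ∈ range (p ^ 2), g p n) / (p : ℝ) ^ 2) =
          V * ∏ p ∈ T, η p := by
        rw [Finset.prod_union hdT, hV]
        have e3 : ∏ p ∈ T, ((∑ n ∈ range (p ^ 2), g p n) / (p : ℝ) ^ 2) = ∏ p ∈ T, η p :=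
          Finset.prod_congr rfl fun p hp => by
            simp only [hη]
            rw [hgS p (hT hp)]
        rw [e3]
        ring
      rw [e1, e2] at hlev
      refine hlev.trans ?_
      rw [hδ]
      exact mul_le_mul_of_nonneg_right hprod (by positivity))
  have hcard : ((S.card : ℝ) + 1) ^ (2 * r) ≤ (z : ℝ) ^ (4 * r) := by
    have hcard : S.card ≤ z := by
      have hsub : S ⊆ Icc 1 z := by
        intro p hp
        obtain ⟨h1, h2⟩ := hS p hp
        exact mem_Icc.2 ⟨h1.pos, h2⟩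
      have := Finset.card_le_card hsub
      simpa using this
    have hcR : (S.card : ℝ) + 1 ≤ (z : ℝ) ^ 2 := by
      have : (S.card : ℝ) ≤ z := by exact_mod_cast hcard
      nlinarith
    calc ((S.card : ℝ) + 1) ^ (2 * r) ≤ ((z : ℝ) ^ 2) ^ (2 * r) :=
          pow_le_pow_left₀ (by positivity) hcR _
      _ = (z : ℝ) ^ (4 * r) := by rw [← pow_mul]; congr 1; ring
  have hPrz : ∏ p ∈ ps, (p : ℝ) ≤ (z : ℝ) ^ k := by
    calc ∏ p ∈ ps, (p : ℝ) ≤ ∏ p ∈ ps, (z : ℝ) :=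
          Finset.prod_le_prod (fun p _ => Nat.cast_nonneg p) (fun p hp => by
            exact_mod_cast (hps p hp).2)
      _ = (z : ℝ) ^ ps.card := by rw [Finset.prod_const]
      _ ≤ (z : ℝ) ^ k := pow_le_pow_right₀ hz1 hpsk
  have hD : ((S.card : ℝ) + 1) ^ (2 * r) * δ ≤
      (C0 * Real.exp (κ * C2)) * (X / ∏ p ∈ ps, (p : ℝ)) * Real.exp (-Λ) := by
    have h1 : ((S.card : ℝ) + 1) ^ (2 * r) * δ ≤ (z : ℝ) ^ (8 * r + 2 * k) * (C0 * (X : ℝ) ^ (1 - θ)) := by
      calc ((S.card : ℝ) + 1) ^ (2 * r) * δ ≤ (z : ℝ) ^ (4 * r) * δ :=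
            mul_le_mul_of_nonneg_right hcard hδ0
        _ = _ := by
            rw [hδ, ← mul_assoc, ← pow_add]
            congr 2
            ring
    refine h1.trans ?_
    rw [Real.exp_neg, ← div_eq_mul_inv, le_div_iff₀ (Real.exp_pos _), ← mul_div_assoc, le_div_iff₀ hPr0]
    have e1 : (X : ℝ) ^ θ * (X : ℝ) ^ (1 - θ) = X := by
      rw [← Real.rpow_add hXpos]
      simp
    calc (z : ℝ) ^ (8 * r + 2 * k) * (C0 * (X : ℝ) ^ (1 - θ)) * Real.exp Λ * ∏ p ∈ ps, (p : ℝ)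
        ≤ (z : ℝ) ^ (8 * r + 2 * k) * (C0 * (X : ℝ) ^ (1 - θ)) * Real.exp Λ * (z : ℝ) ^ k :=
          mul_le_mul_of_nonneg_left hPrz (by positivity)
      _ = ((z : ℝ) ^ (8 * r + 3 * k) * Real.exp Λ) * (C0 * (X : ℝ) ^ (1 - θ)) := by
          have : (z : ℝ) ^ (8 * r + 3 * k) = (z : ℝ) ^ (8 * r + 2 * k) * (z : ℝ) ^ k := by
            rw [← pow_add]
            congr 1
            ring
          rw [this]
          ring
      _ ≤ (Real.exp (κ * C2) * (X : ℝ) ^ θ) * (C0 * (X : ℝ) ^ (1 - θ)) :=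
          mul_le_mul_of_nonneg_right hA (by positivity)
      _ = C0 * Real.exp (κ * C2) * ((X : ℝ) ^ θ * (X : ℝ) ^ (1 - θ)) := by ring
      _ = C0 * Real.exp (κ * C2) * X := by rw [e1]
  have hE : (∑ i ∈ S, η i) ^ (2 * r + 1) / ((2 * r + 1).factorial : ℝ) ≤ Real.exp (-Λ) := by
    apply pow_fact _ _ hΛ0
    push_cast
    linarith
  have hF := prod_exp S η hη01
  refine hbr.trans ?_
  have h1 : V * (∏ i ∈ S, (1 - η i) + (∑ i ∈ S, η i) ^ (2 * r + 1) / ((2 * r + 1).factorial : ℝ)) ≤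
      (X / ∏ p ∈ ps, (p : ℝ)) * (Real.exp (-Λ) + Real.exp (-Λ)) :=
    mul_le_mul hV1 (add_le_add hF hE) (add_nonneg (Finset.prod_nonneg fun p hp => by
      linarith [(hη01 p hp).2]) (by positivity)) (by positivity)
  have hpos : 0 ≤ B / θ * (X / ∏ p ∈ ps, (p : ℝ)) * Real.exp (-Λ) := by positivity
  calc _ ≤ (X / ∏ p ∈ ps, (p : ℝ)) * (Real.exp (-Λ) + Real.exp (-Λ)) +
        (C0 * Real.exp (κ * C2)) * (X / ∏ p ∈ ps, (p : ℝ)) * Real.exp (-Λ) := add_le_add h1 hD
    _ ≤ (X / ∏ p ∈ ps, (p : ℝ)) * (Real.exp (-Λ) + Real.exp (-Λ)) +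
        (C0 * Real.exp (κ * C2)) * (X / ∏ p ∈ ps, (p : ℝ)) * Real.exp (-Λ) +
        B / θ * (X / ∏ p ∈ ps, (p : ℝ)) * Real.exp (-Λ) := by linarith
    _ = _ := by ring

end Pool.Agent.T2H07.IP
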